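import Mathlib

set_option autoImplicit false

namespace Pool.Agent.H.MP_2ae84e_co

open SimpleGraph

section gen
variable {V : Type}

/-- distance from a vertex to a set -/
noncomputable def sd (H : SimpleGraph V) (S : Set V) (u : V) : ℕ :=
  sInf ((fun v => H.dist u v) '' S)

lemma sd_le {H : SimpleGraph V} {S : Set V} {u v : V} (hv : v ∈ S) : sd H S u ≤ H.dist u v :=
  Nat.sInf_le ⟨v, hv, rfl⟩

lemma sd_ex (H : SimpleGraph V) {S : Set V} (hS : S.Nonempty) (u : V) :
    ∃ v ∈ S, H.dist u v = sd H S u :=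
  Nat.sInf_mem (hS.image (fun v => H.dist u v))

lemma sd_zero {H : SimpleGraph V} (hc : H.Connected) {S : Set V} (hS : S.Nonempty) (u : V) :
    sd H S u = 0 ↔ u ∈ S := by
  constructor
  · intro h
    obtain ⟨v, hv, e⟩ := sd_ex H hS u
    rw [h, hc.dist_eq_zero_iff] at e
    exact e ▸ hv
  · intro h
    have := sd_le (H := H) (u := u) h
    rw [dist_self] at this
    omega

lemma sd_adj {H : SimpleGraph V} (hc : H.Connected) {S : Set V} (hS : S.Nonempty) {u w : V}
    (h : H.Adj u w) : sd H S u ≤ sd H S w + 1 := by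
  obtain ⟨v, hv, e⟩ := sd_ex H hS w
  have h1 := sd_le (H := H) (u := u) hv
  have h2 := hc.dist_triangle (u := u) (v := w) (w := v)
  have h3 : H.dist u w = 1 := dist_eq_one_iff_adj.2 h
  omega

lemma sd_desc {H : SimpleGraph V} (hc : H.Connected) {S : Set V} (hS : S.Nonempty) {u : V}
    (h : u ∉ S) : ∃ w, H.Adj u w ∧ sd H S w + 1 = sd H S u := by
  obtain ⟨v, hv, e⟩ := sd_ex H hS u
  obtain ⟨p, hp⟩ := hc.exists_walk_length_eq_dist u v
  cases p with
  | nil => exact absurd hv h
  | @cons _ w _ a q =>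
    refine ⟨w, a, ?_⟩
    have h1 := sd_le (H := H) (u := w) hv
    have h2 := dist_le q
    have h3 := sd_adj hc hS a
    rw [Walk.length_cons] at hp
    omega

lemma sd_eq {H : SimpleGraph V} (hc : H.Connected) {S : Set V} (hS : S.Nonempty) (φ : V → ℕ)
    (h0 : ∀ v, φ v = 0 ↔ v ∈ S) (h1 : ∀ u w, H.Adj u w → φ u ≤ φ w + 1)
    (h2 : ∀ u, φ u ≠ 0 → ∃ w, H.Adj u w ∧ φ w < φ u) (u : V) : sd H S u = φ u := by
  apply le_antisymm
  · suffices ∀ n, ∀ u, φ u = n → sd H S u ≤ n from this _ u rfl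
    intro n
    induction n using Nat.strong_induction_on with
    | _ n ih =>
      intro u hu
      by_cases hz : φ u = 0
      · have := (sd_zero hc hS u).2 ((h0 u).1 hz)
        omega
      · obtain ⟨w, a, hw⟩ := h2 u hz
        have := ih (φ w) (by omega) w rfl
        have := sd_adj hc hS a
        omega
  · suffices ∀ n, ∀ u, sd H S u = n → φ u ≤ n from this _ u rfl
    intro n
    induction n with
    | zero =>
      intro u hu
      have := (h0 u).2 ((sd_zero hc hS u).1 hu)
      omega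
    | succ n ih =>
      intro u hu
      have hn : u ∉ S := fun h => by
        have := (sd_zero hc hS u).2 h
        omega
      obtain ⟨w, a, hw⟩ := sd_desc hc hS hn
      have := ih w (by omega)
      have := h1 u w a
      omega

/-- graph of a parent map restricted to a set -/
def pg (p : V → V) (hp : ∀ v, p v ≠ v) (A : Set V) : SimpleGraph V where
  Adj u v := (u ∈ A ∧ p u = v) ∨ (v ∈ A ∧ p v = u)
  symm := ⟨fun _ _ h => h.symm⟩
  loopless := ⟨fun v h => by rcases h with h | h <;> exact hp v h.2⟩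

lemma pg_card (p : V → V) (hp : ∀ v, p v ≠ v) (hpp : ∀ v, p (p v) ≠ v) (A : Set V) :
    Nat.card (pg p hp A).edgeSet = A.ncard := by
  have e : (pg p hp A).edgeSet = (fun v => s(v, p v)) '' A := by
    ext x
    induction x using Sym2.ind with
    | _ u v =>
      rw [mem_edgeSet]
      constructor
      · rintro (⟨h, rfl⟩ | ⟨h, rfl⟩)
        · exact ⟨u, h, rfl⟩
        · exact ⟨v, h, Sym2.eq_swap⟩
      · rintro ⟨w, hw, e⟩
        rcases Sym2.eq_iff.1 e with ⟨rfl, rfl⟩ | ⟨rfl, rfl⟩
        · exact Or.inl ⟨hw, rfl⟩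
        · exact Or.inr ⟨hw, rfl⟩
  rw [e, Nat.card_coe_set_eq]
  apply Set.ncard_image_of_injective
  intro u v h
  rcases Sym2.eq_iff.1 h with ⟨h1, _⟩ | ⟨h1, h2⟩
  · exact h1
  · exact absurd (by rw [← h1, h2]) (hpp v)

end gen

/-- vertices: legs, path, leaves -/
abbrev W := ((Fin 16 → Bool) × Fin 16) ⊕ (Fin 16 ⊕ Fin 16)

def leg (i : Fin 16 → Bool) (t : Fin 16) : W := Sum.inl (i, t)
def pa (s : Fin 16) : W := Sum.inr (Sum.inl s)
def lf (j : Fin 16) : W := Sum.inr (Sum.inr j)

lemma W_cases (v : W) : (∃ i t, v = leg i t) ∨ (∃ s, v = pa s) ∨ ∃ j, v = lf j := by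
  rcases v with ⟨i, t⟩ | s | j
  · exact Or.inl ⟨i, t, rfl⟩
  · exact Or.inr (Or.inl ⟨s, rfl⟩)
  · exact Or.inr (Or.inr ⟨j, rfl⟩)

@[simp] lemma leg_inj {i i' : Fin 16 → Bool} {t t' : Fin 16} :
    leg i t = leg i' t' ↔ i = i' ∧ t = t' := by simp [leg]
@[simp] lemma pa_inj {s s' : Fin 16} : pa s = pa s' ↔ s = s' := by simp [pa]
@[simp] lemma lf_inj {s s' : Fin 16} : lf s = lf s' ↔ s = s' := by simp [lf]
@[simp] lemma leg_pa {i : Fin 16 → Bool} {t s : Fin 16} : leg i t ≠ pa s := by simp [leg, pa]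
@[simp] lemma leg_lf {i : Fin 16 → Bool} {t s : Fin 16} : leg i t ≠ lf s := by simp [leg, lf]
@[simp] lemma pa_lf {t s : Fin 16} : pa t ≠ lf s := by simp [pa, lf]
@[simp] lemma pa_leg {i : Fin 16 → Bool} {t s : Fin 16} : pa s ≠ leg i t := leg_pa.symm
@[simp] lemma lf_leg {i : Fin 16 → Bool} {t s : Fin 16} : lf s ≠ leg i t := leg_lf.symm
@[simp] lemma lf_pa {t s : Fin 16} : lf s ≠ pa t := pa_lf.symm

def par : W → W
  | Sum.inl (i, t) => if t = 0 then pa 0 else leg i (t - 1)
  | Sum.inr (Sum.inl s) => pa (s - 1)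
  | Sum.inr (Sum.inr _) => pa 15

lemma par_leg (i : Fin 16 → Bool) (t : Fin 16) :
    par (leg i t) = if t = 0 then pa 0 else leg i (t - 1) := rfl
lemma par_pa (s : Fin 16) : par (pa s) = pa (s - 1) := rfl
lemma par_lf (s : Fin 16) : par (lf s) = pa 15 := rfl

lemma f1 : ∀ t : Fin 16, t - 1 ≠ t := by decide
lemma f2 : ∀ t : Fin 16, t - 1 - 1 ≠ t := by decide
lemma f3 : ∀ t : Fin 16, t ≠ 0 → (t - 1).val + 1 = t.val := by decide
lemma f4 : ∀ t : Fin 16, t ≠ 15 → (t + 1).val = t.val + 1 ∧ t + 1 ≠ 0 ∧ t + 1 - 1 = t := by decide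

lemma par_ne (v : W) : par v ≠ v := by
  rcases W_cases v with ⟨i, t, rfl⟩ | ⟨s, rfl⟩ | ⟨j, rfl⟩
  · rw [par_leg]; split_ifs
    · simp
    · simp
  · rw [par_pa]; simp
  · rw [par_lf]; simp

lemma par_par (v : W) : par (par v) ≠ v := by
  rcases W_cases v with ⟨i, t, rfl⟩ | ⟨s, rfl⟩ | ⟨j, rfl⟩
  · rw [par_leg]; split_ifs
    · rw [par_pa]; simp
    · rw [par_leg]; split_ifs
      · simp
      · simp [f2]
  · rw [par_pa, par_pa]; simp [f2]
  · rw [par_lf, par_pa]; simp

def GG : SimpleGraph W := pg par par_ne Set.univ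
def TT : SimpleGraph W := pg par par_ne {v | v ≠ pa 0}

lemma TT_le : TT ≤ GG := by
  rintro u v (⟨_, h⟩ | ⟨_, h⟩)
  · exact Or.inl ⟨trivial, h⟩
  · exact Or.inr ⟨trivial, h⟩

lemma TT_par {v : W} (h : v ≠ pa 0) : TT.Adj v (par v) := Or.inl ⟨h, rfl⟩

def dep : W → ℕ
  | Sum.inl (_, t) => t.val + 1
  | Sum.inr (Sum.inl s) => s.val
  | Sum.inr (Sum.inr _) => 16

lemma dep_par {v : W} (h : v ≠ pa 0) : dep (par v) < dep v := by
  rcases W_cases v with ⟨i, t, rfl⟩ | ⟨s, rfl⟩ | ⟨j, rfl⟩
  · rw [par_leg]; split_ifs with h0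
    · show (0 : Fin 16).val < t.val + 1
      simp
    · show (t - 1).val + 1 < t.val + 1
      have := f3 t h0
      omega
  · show (s - 1).val < s.val
    have := f3 s (by simpa using h)
    omega
  · show (15 : Fin 16).val < 16
    decide

lemma TT_conn : TT.Connected := by
  have : ∀ n, ∀ v, dep v = n → TT.Reachable v (pa 0) := by
    intro n
    induction n using Nat.strong_induction_on with
    | _ n ih =>
      intro v hv
      by_cases h : v = pa 0
      · rw [h]
      · exact (TT_par h).reachable.trans (ih _ (hv ▸ dep_par h) _ rfl)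
  exact ⟨fun u v => (this _ u rfl).trans (this _ v rfl).symm⟩

lemma GG_conn : GG.Connected := TT_conn.mono TT_le

lemma GG_card : Nat.card GG.edgeSet = Nat.card W := by
  rw [GG, pg_card par par_ne par_par, Set.ncard_univ]

lemma TT_tree : TT.IsTree := by
  rw [isTree_iff_connected_and_card]
  refine ⟨TT_conn, ?_⟩
  rw [TT, pg_card par par_ne par_par]
  have h := Set.ncard_add_ncard_compl ({pa 0} : Set W)
  rw [Set.ncard_singleton] at h
  have e : {v : W | v ≠ pa 0} = ({pa 0} : Set W)ᶜ := by ext v; simp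
  rw [e]; omega

/-- the partition of the tree -/
def cl : W → Fin 17
  | Sum.inl (i, t) => if i t then t.succ else 0
  | Sum.inr (Sum.inl _) => 0
  | Sum.inr (Sum.inr j) => j.succ

def ph (j : Fin 16) : W → ℕ
  | Sum.inl (i, t) => if i j then (t.val - j.val) + (j.val - t.val) else t.val + j.val + 2
  | Sum.inr (Sum.inl s) => min (s.val + j.val + 1) (16 - s.val)
  | Sum.inr (Sum.inr j') => if j' = j then 0 else 2

lemma ph_leg (j : Fin 16) (i : Fin 16 → Bool) (t : Fin 16) : ph j (leg i t) =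
    if i j then (t.val - j.val) + (j.val - t.val) else t.val + j.val + 2 := rfl
lemma ph_pa (j s : Fin 16) : ph j (pa s) = min (s.val + j.val + 1) (16 - s.val) := rfl
lemma ph_lf (j s : Fin 16) : ph j (lf s) = if s = j then 0 else 2 := rfl

lemma cl_surj : Function.Surjective cl := by
  intro c
  refine Fin.cases ⟨pa 0, rfl⟩ (fun j => ⟨lf j, rfl⟩) c

lemma ph_zero (j : Fin 16) (v : W) : ph j v = 0 ↔ cl v = j.succ := by
  rcases W_cases v with ⟨i, t, rfl⟩ | ⟨s, rfl⟩ | ⟨s, rfl⟩
  · rw [ph_leg]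
    show _ ↔ (if i t then t.succ else 0) = j.succ
    by_cases h : t = j
    · subst h
      cases i t
      · simp [(Fin.succ_ne_zero t).symm]
      · simp
    · have h' : t.val ≠ j.val := fun e => h (Fin.ext e)
      have h1 : ¬ (if i t then t.succ else 0) = j.succ := by
        split_ifs
        · simpa using h
        · exact (Fin.succ_ne_zero j).symm
      refine ⟨fun x => ?_, fun x => absurd x h1⟩
      clear h1
      split_ifs at x <;> omega
  · rw [ph_pa]
    show _ ↔ (0 : Fin 17) = j.succ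
    have := s.2
    simp only [(Fin.succ_ne_zero j).symm, iff_false]
    omega
  · rw [ph_lf]
    show _ ↔ s.succ = j.succ
    simp

lemma ph_par (j : Fin 16) {v : W} (h : v ≠ pa 0) :
    ph j v ≤ ph j (par v) + 1 ∧ ph j (par v) ≤ ph j v + 1 := by
  have hj := j.2
  rcases W_cases v with ⟨i, t, rfl⟩ | ⟨s, rfl⟩ | ⟨s, rfl⟩
  · rw [par_leg]; split_ifs with h0
    · subst h0
      rw [ph_leg, ph_pa]
      simp only [Fin.val_zero]
      split_ifs <;> omega
    · rw [ph_leg, ph_leg]
      have := f3 t h0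
      split_ifs <;> omega
  · rw [par_pa, ph_pa, ph_pa]
    have := f3 s (by simpa using h)
    have := s.2
    omega
  · rw [par_lf, ph_lf, ph_pa]
    have : (15 : Fin 16).val = 15 := rfl
    split_ifs <;> omega

lemma ph_desc (j : Fin 16) (v : W) (h : ph j v ≠ 0) : ∃ w, TT.Adj v w ∧ ph j w < ph j v := by
  have hj := j.2
  have h15 : (15 : Fin 16).val = 15 := rfl
  rcases W_cases v with ⟨i, t, rfl⟩ | ⟨s, rfl⟩ | ⟨s, rfl⟩
  · by_cases hc : i j = true ∧ t.val < j.val
    · have ht : t ≠ 15 := by rintro rfl; omega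
      obtain ⟨a, b, c⟩ := f4 t ht
      refine ⟨leg i (t + 1), Or.inr ⟨leg_pa, ?_⟩, ?_⟩
      · rw [par_leg, if_neg b, c]
      · rw [ph_leg, ph_leg, if_pos hc.1, if_pos hc.1]; omega
    · refine ⟨_, TT_par leg_pa, ?_⟩
      rw [ph_leg] at h
      rw [par_leg]
      split_ifs with h0
      · subst h0
        rw [ph_leg, ph_pa]
        simp only [Fin.val_zero] at *
        split_ifs at * with h1
        · simp only [h1, true_and] at hc; omega
        · omega
      · have := f3 t h0
        rw [ph_leg, ph_leg]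
        split_ifs at * with h1
        · simp only [h1, true_and] at hc; omega
        · omega
  · have hs := s.2
    by_cases hc : s.val + j.val + 1 ≤ 16 - s.val
    · by_cases h0 : s = 0
      · subst h0
        refine ⟨leg (fun _ => true) 0, Or.inr ⟨leg_pa, rfl⟩, ?_⟩
        rw [ph_leg, ph_pa]
        simp only [Fin.val_zero, if_true]
        omega
      · refine ⟨_, TT_par (by simpa using h0), ?_⟩
        have := f3 s h0
        rw [par_pa, ph_pa, ph_pa]
        omega
    · by_cases h0 : s = 15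
      · subst h0
        refine ⟨lf j, Or.inr ⟨lf_pa, rfl⟩, ?_⟩
        rw [ph_lf, if_pos rfl]
        omega
      · obtain ⟨a, b, c⟩ := f4 s h0
        refine ⟨pa (s + 1), Or.inr ⟨by simpa using b, ?_⟩, ?_⟩
        · rw [par_pa, c]
        · rw [ph_pa, ph_pa]; omega
  · refine ⟨_, TT_par lf_pa, ?_⟩
    rw [ph_lf] at h
    rw [par_lf, ph_lf, ph_pa]
    split_ifs at * <;> omega

lemma sd_TT (j : Fin 16) (v : W) : sd TT {v | cl v = j.succ} v = ph j v := by
  apply sd_eq TT_conn (S := {v | cl v = j.succ}) ⟨lf j, rfl⟩ (ph j) (ph_zero j) _ (ph_desc j)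
  rintro u w (⟨h, rfl⟩ | ⟨h, rfl⟩)
  · exact (ph_par j h).1
  · exact (ph_par j h).2

lemma ph_inj (u w : W) (h : ∀ j, ph j u = ph j w) : u = w := by
  have v0 : (0 : Fin 16).val = 0 := rfl
  have v1 : (1 : Fin 16).val = 1 := rfl
  have v2 : (2 : Fin 16).val = 2 := rfl
  have v5 : (5 : Fin 16).val = 5 := rfl
  have v10 : (10 : Fin 16).val = 10 := rfl
  have v13 : (13 : Fin 16).val = 13 := rfl
  have v14 : (14 : Fin 16).val = 14 := rfl
  have v15 : (15 : Fin 16).val = 15 := rfl
  have lp : ∀ i t s, ¬ ∀ j, ph j (leg i t) = ph j (pa s) := by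
    intro i t s h
    have a := h 0
    have b := h 1
    have c := h 13
    have d := h 14
    have e := h 15
    have := s.2
    simp only [ph_leg, ph_pa] at a b c d e
    split_ifs at a b c d e <;> omega
  have ll : ∀ i t s, ¬ ∀ j, ph j (leg i t) = ph j (lf s) := by
    intro i t s h
    have a := h 5
    have b := h 10
    simp only [ph_leg, ph_lf] at a b
    split_ifs at a b <;> omega
  have pl : ∀ t s, ¬ ∀ j, ph j (pa t) = ph j (lf s) := by
    intro t s h
    have a := h s
    have := t.2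
    rw [ph_pa, ph_lf, if_pos rfl] at a
    omega
  rcases W_cases u with ⟨i, t, rfl⟩ | ⟨s, rfl⟩ | ⟨s, rfl⟩ <;>
    rcases W_cases w with ⟨i', t', rfl⟩ | ⟨s', rfl⟩ | ⟨s', rfl⟩
  · have ht : t.val = t'.val := by
      have a := h 0
      have b := h 1
      have c := h 2
      simp only [ph_leg] at a b c
      split_ifs at a b c <;> omega
    rw [leg_inj]
    refine ⟨funext fun j => ?_, Fin.ext ht⟩
    have a := h j
    simp only [ph_leg] at a
    cases h1 : i j <;> cases h2 : i' j <;> simp only [h1, h2, if_true, Bool.false_eq_true, if_false] at a ⊢ <;> omega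
  · exact absurd h (lp _ _ _)
  · exact absurd h (ll _ _ _)
  · exact absurd (fun j => (h j).symm) (lp _ _ _)
  · have a := h 15
    have := s.2
    have := s'.2
    rw [ph_pa, ph_pa] at a
    rw [pa_inj]
    exact Fin.ext (by omega)
  · exact absurd h (pl _ _)
  · exact absurd (fun j => (h j).symm) (ll _ _ _)
  · exact absurd (fun j => (h j).symm) (pl _ _)
  · have a := h s
    rw [ph_lf, ph_lf, if_pos rfl] at a
    rw [lf_inj]
    by_contra hne
    rw [if_neg (fun e => hne e.symm)] at a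
    omega

lemma TT_res (u w : W) (h : ∀ c : Fin 17, sd TT {v | cl v = c} u = sd TT {v | cl v = c} w) :
    u = w := ph_inj u w fun j => by rw [← sd_TT, ← sd_TT]; exact h _

/-! The unicyclic graph -/

lemma G_lf {s : Fin 16} {w : W} (h : GG.Adj (lf s) w) : w = pa 15 := by
  rcases h with ⟨_, h⟩ | ⟨_, h⟩
  · exact h.symm
  · exfalso
    rcases W_cases w with ⟨i, t, rfl⟩ | ⟨s, rfl⟩ | ⟨s, rfl⟩
    · rw [par_leg] at h; split_ifs at h <;> simp at h
    · rw [par_pa] at h; simp at h
    · rw [par_lf] at h; simp at h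

lemma G_leg {i : Fin 16 → Bool} {t : Fin 16} {w : W} (h : GG.Adj (leg i t) w) :
    w = par (leg i t) ∨ w = leg i (t + 1) := by
  rcases h with ⟨_, h⟩ | ⟨_, h⟩
  · exact Or.inl h.symm
  · right
    rcases W_cases w with ⟨i', t', rfl⟩ | ⟨s, rfl⟩ | ⟨s, rfl⟩
    · rw [par_leg] at h; split_ifs at h
      · simp at h
      · rw [leg_inj] at h ⊢
        refine ⟨h.1, ?_⟩
        rw [← h.2]; simp
    · rw [par_pa] at h; simp at h
    · rw [par_lf] at h; simp at h

lemma G_par (v : W) : GG.Adj v (par v) := Or.inl ⟨trivial, rfl⟩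

lemma no_res (m : ℕ) (hm : m ≤ 18) (g : W → Fin m) (hg : Function.Surjective g)
    (hr : ∀ u w : W, (∀ c : Fin m, sd GG {v | g v = c} u = sd GG {v | g v = c} w) → u = w) :
    False := by
  classical
  have ne : ∀ c, ({v | g v = c} : Set W).Nonempty := fun c => hg c
  set D : Fin m → W → ℕ := fun c u => sd GG {v | g v = c} u with hD
  have z : ∀ c u, D c u = 0 ↔ g u = c := fun c u => sd_zero GG_conn (ne c) u
  have adj : ∀ c {u w}, GG.Adj u w → D c u ≤ D c w + 1 := fun c _ _ h => sd_adj GG_conn (ne c) h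
  have desc : ∀ c u, D c u ≠ 0 → ∃ w, GG.Adj u w ∧ D c w + 1 = D c u :=
    fun c u h => sd_desc GG_conn (ne c) (fun e => h ((z c u).2 e))
  have linj : Function.Injective (fun j => g (lf j)) := by
    intro j j' e
    have e' : g (lf j) = g (lf j') := e
    rw [← lf_inj]
    apply hr
    intro c
    show D c _ = D c _
    by_cases h : g (lf j) = c
    · rw [(z c _).2 h, (z c _).2 (e' ▸ h)]
    · obtain ⟨w, a, hw⟩ := desc c (lf j) (fun x => h ((z c _).1 x))
      obtain ⟨w', a', hw'⟩ := desc c (lf j') (fun x => h (e'.trans ((z c _).1 x)))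
      rw [G_lf a] at hw
      rw [G_lf a'] at hw'
      omega
  set F : Finset (Fin m) := (Finset.univ.image (fun j => g (lf j)))ᶜ with hF
  have hFc : F.card ≤ 2 := by
    rw [hF, Finset.card_compl, Finset.card_image_of_injective _ linj]
    simp only [Fintype.card_fin, Finset.card_univ]
    omega
  have a01 : ∀ i, GG.Adj (leg i 0) (pa 0) := fun i => G_par (leg i 0)
  have a10 : ∀ i, GG.Adj (leg i 1) (leg i 0) := fun i => G_par (leg i 1)
  have a21 : ∀ i, GG.Adj (leg i 2) (leg i 1) := fun i => G_par (leg i 2)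
  have key : ∀ c i, D c (leg i 0) ≤ D c (pa 0) + 1 ∧ D c (leg i 0) ≤ D c (leg i 1) + 1 ∧
      D c (leg i 1) ≤ D c (leg i 2) + 1 ∧
      (D c (leg i 0) = 0 ∨ D c (leg i 0) = D c (pa 0) + 1 ∨ D c (leg i 0) = D c (leg i 1) + 1) ∧
      (D c (leg i 1) = 0 ∨ D c (leg i 1) = D c (leg i 0) + 1 ∨
        D c (leg i 1) = D c (leg i 2) + 1) := by
    intro c i
    refine ⟨adj c (a01 i), adj c (a10 i).symm, adj c (a21 i).symm, ?_, ?_⟩
    · by_cases h : D c (leg i 0) = 0
      · exact Or.inl h
      · obtain ⟨w, a, hw⟩ := desc c _ h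
        rcases G_leg a with rfl | rfl
        · exact Or.inr (Or.inl hw.symm)
        · exact Or.inr (Or.inr hw.symm)
    · by_cases h : D c (leg i 1) = 0
      · exact Or.inl h
      · obtain ⟨w, a, hw⟩ := desc c _ h
        rcases G_leg a with rfl | rfl
        · exact Or.inr (Or.inl hw.symm)
        · exact Or.inr (Or.inr hw.symm)
  let Φ : (Fin 16 → Bool) → Fin m × Fin m × Fin m × (F → Fin 3) := fun i =>
    (g (leg i 0), g (leg i 1), g (leg i 2), fun c => ⟨D c (leg i 0) + 1 - D c (pa 0), by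
      have := (key c i).1
      omega⟩)
  have hΦ : Function.Injective Φ := by
    intro i i' e
    have e0 : g (leg i 0) = g (leg i' 0) := congrArg (fun x => x.1) e
    have e1 : g (leg i 1) = g (leg i' 1) := congrArg (fun x => x.2.1) e
    have e2 : g (leg i 2) = g (leg i' 2) := congrArg (fun x => x.2.2.1) e
    have e3 : ∀ c : F, D c (leg i 0) + 1 - D c (pa 0) = D c (leg i' 0) + 1 - D c (pa 0) :=
      fun c => congrArg (fun x => (x.2.2.2 c).val) e
    have : leg i 0 = leg i' 0 := by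
      apply hr
      intro c
      show D c _ = D c _
      by_cases hc : c ∈ F
      · have b := e3 ⟨c, hc⟩
        have b1 := adj c (a01 i).symm
        have b2 := adj c (a01 i').symm
        simp only at b
        omega
      · rw [hF, Finset.mem_compl, not_not, Finset.mem_image] at hc
        obtain ⟨j, _, hj⟩ := hc
        have b0 := (z c _).2 hj
        have b1 := adj c (G_par (lf j)).symm
        have b2 : D c (pa 0) ≤ D c (pa 15) + 1 := adj c (G_par (pa 0))
        rw [par_lf] at b1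
        have k1 := key c i
        have k2 := key c i'
        have z0 : D c (leg i 0) = 0 ↔ D c (leg i' 0) = 0 := by rw [z, z, e0]
        have z1 : D c (leg i 1) = 0 ↔ D c (leg i' 1) = 0 := by rw [z, z, e1]
        have z2 : D c (leg i 2) = 0 ↔ D c (leg i' 2) = 0 := by rw [z, z, e2]
        omega
    exact (leg_inj.1 this).1
  have hc := Fintype.card_le_of_injective Φ hΦ
  simp only [Fintype.card_prod, Fintype.card_fin, Fintype.card_fun, Fintype.card_bool,
    Fintype.card_coe] at hc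
  have h3 : 3 ^ F.card ≤ 3 ^ 2 := Nat.pow_le_pow_right (by norm_num) hFc
  have : m * (m * (m * 3 ^ F.card)) ≤ 18 * (18 * (18 * 3 ^ 2)) := by gcongr
  omega

end Pool.Agent.H.MP_2ae84e_co
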